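import Pool.Agent.X223.PiMin

/-!
# Minimality is definable in the lattice of `Π⁰₁` classes

`EPi` is the type of all `Π⁰₁` classes in Cantor space (sets of paths of computable binary trees),
ordered by inclusion. A class `P` is minimal if its image in the lattice of `Π⁰₁` classes modulo
finite differences is an atom: `P` is infinite, and every `Π⁰₁` class `Q ⊆ P` is finite or has a
finite complement in `P`. This property is first-order definable without parameters.

The proof: finiteness is definable by the starting library (`Helper446.CB`), and if `P \ Q` is
finite, then it is the trace on `P` of a clopen set, so that it is a finite `Π⁰₁` class `F` with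
`P ⊆ Q ∪ F`.
-/

set_option autoImplicit false

namespace Pool.Agent.Results.MP_aad418_lc.MinimalDefinable

open Pool.Agent.Helper446.CB

/-- `P` is a minimal `Π⁰₁` class: it is infinite, and for every `Π⁰₁` class `Q ⊆ P` either `Q` or
`P \ Q` is finite. -/
def IsMinimal (P : EPi) : Prop :=
  P.1.Infinite ∧ ∀ Q : EPi, Q.1 ⊆ P.1 → Q.1.Finite ∨ (P.1 \ Q.1).Finite

/-- There is a first-order formula in the language of partial orders, without parameters, which
holds in the lattice of `Π⁰₁` classes exactly of the minimal ones. -/
theorem result : ∃ φ : FirstOrder.Language.order.Formula (Fin 1),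
    ∀ P : EPi, φ.Realize (fun _ => P) ↔ IsMinimal P := by
  obtain ⟨φ, hφ⟩ := Pool.Agent.X223.PiMin.def_min (Γ := Fin 1) 0
  exact ⟨φ, fun P => hφ fun _ => P⟩

end Pool.Agent.Results.MP_aad418_lc.MinimalDefinable
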